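import Pool.Agent.H77.CwA

open H77.Cw

theorem Pool.Agent.Results.MP_697e97_al.EndRandom.result :
    ∀ (V : Type) [Countable V] (G : SimpleGraph V), IsRandom G → IsProd (EndG G) 3 :=
  fun _ _ _ h => end_three h
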