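import Pool.Agent.H77.CwA

open H77.Cw

theorem Pool.Agent.Results.MP_697e97_al.RatAut.result : ∀ n, ¬ IsProd AutQ n :=
  not_prod AutQ (fun _ h => h.1) (fun _ h1 h2 => ⟨h1, h2⟩)
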