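import Pool.Agent.H77.CwA

open H77.Cw

theorem Pool.Agent.Results.MP_697e97_al.RatEnd.result : ∀ n, ¬ IsProd EndQ n :=
  not_prod EndQ (fun _ h => h) (fun _ h _ => h)
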